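import Pool.Agent.Y80.KI.Defs

set_option autoImplicit false

open scoped BigOperators
open MeasureTheory

/-! Job KI-CT of helper80: constant terms. -/

namespace Pool.Agent.Y43.KI

open Pool.Agent.Y80.KI Pool.Agent.Y80.KM

theorem evT_single {N : ℕ} (μ : Fin N → ℤ) (c : ℤ) :
    evT N (AddMonoidAlgebra.single μ c) = (c : ℂ) • UnitAddTorus.mFourier μ := by
  change (AddMonoidAlgebra.lift ℤ (C(KT N, ℂ)) (Fin N → ℤ) _ : TG N →ₐ[ℤ] C(KT N, ℂ))
    (AddMonoidAlgebra.single μ c) = _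
  rw [AddMonoidAlgebra.lift_single]
  ext θ
  simp

theorem int_fourier (n : ℤ) :
    ∫ x, (fourier n x : ℂ) ∂(AddCircle.haarAddCircle : Measure UnitAddCircle) =
      if n = 0 then 1 else 0 := by
  split_ifs with h
  · subst h
    simp
  · have h1 : (0 : ℝ) < 1 := one_pos
    exact integral_eq_zero_of_add_right_eq_neg (μ := AddCircle.haarAddCircle)
      (fourier_add_half_inv_index (T := (1 : ℝ)) h h1)

theorem int_mF {N : ℕ} (μ : Fin N → ℤ) :
    ∫ θ, UnitAddTorus.mFourier μ θ ∂(muT N) = if μ = 0 then 1 else 0 := by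
  have h := integral_fintype_prod_eq_prod (ι := Fin N) (𝕜 := ℂ) (E := fun _ => UnitAddCircle)
    (fun i x => (fourier (μ i) x : ℂ))
    (μ := fun _ => (AddCircle.haarAddCircle : Measure UnitAddCircle))
  have h2 : ∫ θ, UnitAddTorus.mFourier μ θ ∂(muT N) =
      ∏ i, ∫ x, (fourier (μ i) x : ℂ) ∂(AddCircle.haarAddCircle : Measure UnitAddCircle) := h
  rw [h2]
  split_ifs with h0
  · subst h0
    simp
  · obtain ⟨i, hi⟩ := Function.ne_iff.1 h0
    apply Finset.prod_eq_zero (Finset.mem_univ i)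
    rw [int_fourier]
    exact if_neg hi

theorem int_evT {N : ℕ} (g : TG N) : ∫ θ, evT N g θ ∂(muT N) = ((g.coeff 0 : ℤ) : ℂ) := by
  have : IsProbabilityMeasure (muT N) := by
    unfold muT
    infer_instance
  induction g using AddMonoidAlgebra.induction_linear with
  | zero => simp
  | add f g hf hg =>
    rw [map_add, AddMonoidAlgebra.coeff_add, Finsupp.add_apply, Int.cast_add, ← hf, ← hg,
      ← integral_add]
    · rfl
    · exact (evT N f).continuous.integrable_of_hasCompactSupport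
        (HasCompactSupport.of_compactSpace _)
    · exact (evT N g).continuous.integrable_of_hasCompactSupport
        (HasCompactSupport.of_compactSpace _)
  | single μ c =>
    rw [evT_single]
    have h1 : ∫ θ, ((c : ℂ) • UnitAddTorus.mFourier μ : C(KT N, ℂ)) θ ∂(muT N) =
        ∫ θ, (c : ℂ) * UnitAddTorus.mFourier μ θ ∂(muT N) := rfl
    rw [h1, integral_const_mul, int_mF, AddMonoidAlgebra.coeff_single, Finsupp.single_apply]
    split_ifs <;> simp

/-- the vector of a permutation -/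
def rho {N : ℕ} (σ : Equiv.Perm (Fin N)) : Fin N → ℤ := fun i => ((σ i : ℕ) : ℤ)

/-- the Weyl density as a combination of characters -/
noncomputable def DD (N : ℕ) : TG N :=
  ∑ σ : Equiv.Perm (Fin N), ∑ τ : Equiv.Perm (Fin N),
    AddMonoidAlgebra.single (rho σ - rho τ) ((Equiv.Perm.sign σ : ℤ) * (Equiv.Perm.sign τ : ℤ))

theorem mF_sub {N : ℕ} (μ ν : Fin N → ℤ) (θ : KT N) :
    UnitAddTorus.mFourier (μ - ν) θ =
      UnitAddTorus.mFourier μ θ * (starRingEnd ℂ) (UnitAddTorus.mFourier ν θ) := by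
  rw [sub_eq_add_neg, UnitAddTorus.mFourier_add, UnitAddTorus.mFourier_neg]

theorem vand_apply {N : ℕ} (θ : KT N) : vand N θ =
    ∑ σ : Equiv.Perm (Fin N), ((Equiv.Perm.sign σ : ℤ) : ℂ) *
      UnitAddTorus.mFourier (rho σ) θ := by
  unfold vand
  rw [ContinuousMap.sum_apply]
  rfl

theorem wgt_ev {N : ℕ} (θ : KT N) : (wgt N θ : ℂ) = evT N (DD N) θ := by
  have h1 : (wgt N θ : ℂ) = vand N θ * (starRingEnd ℂ) (vand N θ) := by
    rw [Complex.mul_conj']
    change (((‖vand N θ‖ ^ 2 : ℝ)) : ℂ) = _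
    push_cast
    rfl
  rw [h1, vand_apply, map_sum, Finset.sum_mul_sum]
  unfold DD
  rw [map_sum, ContinuousMap.sum_apply]
  apply Finset.sum_congr rfl
  intro σ _
  rw [map_sum, ContinuousMap.sum_apply]
  apply Finset.sum_congr rfl
  intro τ _
  rw [evT_single, ContinuousMap.smul_apply, mF_sub, map_mul, smul_eq_mul]
  have h2 : (starRingEnd ℂ) ((Equiv.Perm.sign τ : ℤ) : ℂ) = ((Equiv.Perm.sign τ : ℤ) : ℂ) :=
    map_intCast (starRingEnd ℂ) _
  rw [h2]
  push_cast
  ring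

theorem coeff_mul_DD {N : ℕ} (f : TG N) : (f * DD N).coeff 0 =
    ∑ σ : Equiv.Perm (Fin N), ∑ τ : Equiv.Perm (Fin N),
      f.coeff (rho τ - rho σ) * ((Equiv.Perm.sign σ : ℤ) * (Equiv.Perm.sign τ : ℤ)) := by
  unfold DD
  rw [Finset.mul_sum, AddMonoidAlgebra.coeff_sum, Finsupp.finsetSum_apply]
  apply Finset.sum_congr rfl
  intro σ _
  rw [Finset.mul_sum, AddMonoidAlgebra.coeff_sum, Finsupp.finsetSum_apply]
  apply Finset.sum_congr rfl
  intro τ _
  rw [AddMonoidAlgebra.coeff_mul_single_apply]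
  congr 2
  abel

theorem coeff_DD_winv {N : ℕ} (f : TG N) (hf : WInv f) : (f * DD N).coeff 0 =
    (N.factorial : ℤ) * e0 N (fun μ => f.coeff μ) := by
  rw [coeff_mul_DD]
  have h1 : ∀ σ : Equiv.Perm (Fin N), ∑ τ : Equiv.Perm (Fin N),
      f.coeff (rho τ - rho σ) * ((Equiv.Perm.sign σ : ℤ) * (Equiv.Perm.sign τ : ℤ)) =
      e0 N (fun μ => f.coeff μ) := by
    intro σ
    rw [← Equiv.sum_comp (Equiv.mulRight σ)]
    unfold e0
    apply Finset.sum_congr rfl
    intro π _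
    rw [Equiv.coe_mulRight]
    have h2 : rho (π * σ) - rho σ = (fun i : Fin N => ((π i : ℕ) : ℤ) - ((i : ℕ) : ℤ)) ∘ σ := by
      funext i
      rfl
    rw [h2, hf, Equiv.Perm.sign_mul]
    have h3 : ((Equiv.Perm.sign σ : ℤˣ) : ℤ) * ((Equiv.Perm.sign σ : ℤˣ) : ℤ) = 1 := by
      rw [← Units.val_mul, Int.units_mul_self, Units.val_one]
    rw [Units.val_mul]
    calc f.coeff (fun i : Fin N => ((π i : ℕ) : ℤ) - ((i : ℕ) : ℤ)) *
        ((Equiv.Perm.sign σ : ℤ) * ((Equiv.Perm.sign π : ℤ) * (Equiv.Perm.sign σ : ℤ)))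
        = (Equiv.Perm.sign π : ℤ) * f.coeff (fun i : Fin N => ((π i : ℕ) : ℤ) - ((i : ℕ) : ℤ)) *
          (((Equiv.Perm.sign σ : ℤˣ) : ℤ) * ((Equiv.Perm.sign σ : ℤˣ) : ℤ)) := by ring
      _ = _ := by rw [h3, mul_one]
  rw [Finset.sum_congr rfl fun σ _ => h1 σ, Finset.sum_const, Finset.card_univ,
    Fintype.card_perm, Fintype.card_fin, nsmul_eq_mul]

theorem ct_e0 {N : ℕ} (f : TG N) (hf : WInv f) :
    ∫ θ, evT N f θ * (wgt N θ : ℂ) ∂(muT N) =
      (N.factorial : ℂ) * ((e0 N (fun μ => f.coeff μ) : ℤ) : ℂ) := by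
  have h1 : ∀ θ, evT N f θ * (wgt N θ : ℂ) = evT N (f * DD N) θ := by
    intro θ
    rw [wgt_ev, map_mul, ContinuousMap.mul_apply]
  simp_rw [h1]
  rw [int_evT, coeff_DD_winv f hf]
  push_cast
  rfl

/-- `|χ|²` as a combination of characters -/
noncomputable def CC (N : ℕ) : TG N :=
  ∑ i : Fin N, ∑ j : Fin N, AddMonoidAlgebra.single (epsd i j) 1

theorem chN_ev {N : ℕ} (θ : KT N) : (chN N θ : ℂ) = evT N (CC N) θ := by
  have h1 : (chN N θ : ℂ) = (∑ j : Fin N, UnitAddTorus.mFourier (Pi.single j (1 : ℤ)) θ) *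
      (starRingEnd ℂ) (∑ j : Fin N, UnitAddTorus.mFourier (Pi.single j (1 : ℤ)) θ) := by
    rw [Complex.mul_conj']
    change (((‖∑ j : Fin N, UnitAddTorus.mFourier (Pi.single j (1 : ℤ)) θ‖ ^ 2 : ℝ)) : ℂ) = _
    push_cast
    rfl
  rw [h1, map_sum, Finset.sum_mul_sum]
  unfold CC
  rw [map_sum, ContinuousMap.sum_apply]
  apply Finset.sum_congr rfl
  intro i _
  rw [map_sum, ContinuousMap.sum_apply]
  apply Finset.sum_congr rfl
  intro j _
  rw [evT_single, ContinuousMap.smul_apply, epsd, mF_sub, Int.cast_one, one_smul]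

theorem coeff_mul_CC {N : ℕ} (f : TG N) (μ : Fin N → ℤ) : (f * CC N).coeff μ =
    ∑ i : Fin N, ∑ j : Fin N, f.coeff (μ + epsd i j) := by
  unfold CC
  rw [Finset.mul_sum, AddMonoidAlgebra.coeff_sum, Finsupp.finsetSum_apply, Finset.sum_comm]
  apply Finset.sum_congr rfl
  intro σ _
  rw [Finset.mul_sum, AddMonoidAlgebra.coeff_sum, Finsupp.finsetSum_apply]
  apply Finset.sum_congr rfl
  intro τ _
  rw [AddMonoidAlgebra.coeff_mul_single_apply, mul_one]
  congr 1
  unfold epsd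
  abel

theorem epsd_comp {N : ℕ} (σ : Equiv.Perm (Fin N)) (i j : Fin N) :
    epsd (σ i) (σ j) ∘ σ = epsd i j := by
  funext k
  simp only [epsd, Function.comp_apply, Pi.sub_apply, Pi.single_apply, EmbeddingLike.apply_eq_iff_eq]

theorem winv_mul_CC {N : ℕ} (f : TG N) (hf : WInv f) : WInv (f * CC N) := by
  intro σ μ
  rw [coeff_mul_CC, coeff_mul_CC,
    ← Equiv.sum_comp σ (fun i => ∑ j, f.coeff (μ + epsd i j))]
  apply Finset.sum_congr rfl
  intro i _
  rw [← Equiv.sum_comp σ (fun j => f.coeff (μ + epsd (σ i) j))]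
  apply Finset.sum_congr rfl
  intro j _
  rw [← hf σ (μ + epsd (σ i) (σ j))]
  congr 1
  rw [← epsd_comp σ i j]
  rfl

theorem ct_egl {N : ℕ} (f : TG N) (hf : WInv f) :
    ∫ θ, evT N f θ * ((chN N θ : ℂ) * (wgt N θ : ℂ)) ∂(muT N) =
      (N.factorial : ℂ) * ((egl N (fun μ => f.coeff μ) : ℤ) : ℂ) := by
  have h1 : ∀ θ, evT N f θ * ((chN N θ : ℂ) * (wgt N θ : ℂ)) =
      evT N (f * CC N) θ * (wgt N θ : ℂ) := by
    intro θ
    rw [chN_ev, map_mul, ContinuousMap.mul_apply, mul_assoc]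
  simp_rw [h1]
  rw [ct_e0 (f * CC N) (winv_mul_CC f hf)]
  congr 2
  unfold egl e0
  simp_rw [coeff_mul_CC, Finset.mul_sum]
  rw [Finset.sum_comm]
  apply Finset.sum_congr rfl
  intro i _
  rw [Finset.sum_comm]

/-! ### invariance -/

/-- the coordinate permutation as an automorphism of the weight lattice -/
def permE {N : ℕ} (σ : Equiv.Perm (Fin N)) : (Fin N → ℤ) ≃+ (Fin N → ℤ) where
  toFun μ := μ ∘ σ.symm
  invFun μ := μ ∘ σ
  left_inv μ := by
    funext i
    simp
  right_inv μ := by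
    funext i
    simp
  map_add' μ ν := rfl

/-- the action on characters -/
noncomputable def permR {N : ℕ} (σ : Equiv.Perm (Fin N)) : TG N →+* TG N :=
  (AddMonoidAlgebra.domCongr ℤ ℤ (permE σ) : TG N ≃ₐ[ℤ] TG N).toRingEquiv.toRingHom

theorem permR_coeff {N : ℕ} (σ : Equiv.Perm (Fin N)) (f : TG N) (μ : Fin N → ℤ) :
    (permR σ f).coeff μ = f.coeff (μ ∘ σ) := by
  change (AddMonoidAlgebra.domCongr ℤ ℤ (permE σ) f).coeff μ = _
  rw [AddMonoidAlgebra.coeff_domCongr]
  rfl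

theorem winv_of {N : ℕ} (f : TG N) (h : ∀ σ, permR σ f = f) : WInv f := by
  intro σ μ
  rw [← permR_coeff, h]

theorem permR_rootE {N : ℕ} (σ : Equiv.Perm (Fin N)) (p : Rt N) :
    permR σ (rootE N p) = rootE N ⟨(σ p.1.1, σ p.1.2), fun h => p.2 (σ.injective h)⟩ := by
  unfold rootE
  change AddMonoidAlgebra.domCongr ℤ ℤ (permE σ) _ = _
  rw [AddMonoidAlgebra.domCongr_single]
  congr 1
  change epsd p.1.1 p.1.2 ∘ σ.symm = _
  rw [← epsd_comp σ p.1.1 p.1.2]
  funext i
  simp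

section ipw

variable {R S : Type*} [CommRing R] [CommRing S] (φ : R →+* S)

theorem map_invOfUnit_one (f : PowerSeries R) (hf : PowerSeries.constantCoeff f = 1) :
    PowerSeries.map φ (PowerSeries.invOfUnit f 1) =
      PowerSeries.invOfUnit (PowerSeries.map φ f) 1 := by
  have h1 : f * PowerSeries.invOfUnit f 1 = 1 :=
    PowerSeries.mul_invOfUnit f 1 (by rw [hf, Units.val_one])
  have h2 : PowerSeries.map φ f * PowerSeries.invOfUnit (PowerSeries.map φ f) 1 = 1 := by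
    apply PowerSeries.mul_invOfUnit
    rw [← PowerSeries.coeff_zero_eq_constantCoeff_apply, PowerSeries.coeff_map,
      PowerSeries.coeff_zero_eq_constantCoeff_apply, hf, map_one, Units.val_one]
  have h3 : PowerSeries.map φ f * PowerSeries.map φ (PowerSeries.invOfUnit f 1) = 1 := by
    rw [← map_mul, h1, map_one]
  calc PowerSeries.map φ (PowerSeries.invOfUnit f 1)
      = PowerSeries.map φ (PowerSeries.invOfUnit f 1) *
        (PowerSeries.map φ f * PowerSeries.invOfUnit (PowerSeries.map φ f) 1) := by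
        rw [h2, mul_one]
    _ = (PowerSeries.map φ f * PowerSeries.map φ (PowerSeries.invOfUnit f 1)) *
        PowerSeries.invOfUnit (PowerSeries.map φ f) 1 := by ring
    _ = _ := by rw [h3, one_mul]

theorem map_ipw (f : PowerSeries R) (hf : PowerSeries.constantCoeff f = 1) (n : ℤ) :
    PowerSeries.map φ (ipw f n) = ipw (PowerSeries.map φ f) n := by
  unfold ipw
  split_ifs
  · rw [map_pow]
  · rw [map_pow, map_invOfUnit_one φ f hf]

theorem cc_one_sub (n : ℕ) (hn : 1 ≤ n) (z : R) :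
    PowerSeries.constantCoeff (1 - PowerSeries.monomial n z) = 1 := by
  rw [← PowerSeries.coeff_zero_eq_constantCoeff_apply, map_sub, PowerSeries.coeff_monomial,
    if_neg (by omega)]
  simp

theorem map_fprod {ι : Type*} [Fintype ι] (z : ι → R) (A : ℕ → ℤ) (N0 : ℕ) :
    PowerSeries.map φ (fprod z A N0) = fprod (fun i => φ (z i)) A N0 := by
  unfold fprod
  rw [map_prod]
  apply Finset.prod_congr rfl
  intro n hn
  have hn1 : 1 ≤ n := (Finset.mem_Icc.1 hn).1
  rw [map_prod]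
  apply Finset.prod_congr rfl
  intro i _
  rw [map_ipw φ _ (cc_one_sub n hn1 (z i)), map_sub, map_one]
  congr 2
  ext k
  rw [PowerSeries.coeff_map, PowerSeries.coeff_monomial, PowerSeries.coeff_monomial]
  split_ifs
  · rfl
  · rw [map_zero]

end ipw

/-- the permutation of the roots -/
def permRt {N : ℕ} (σ : Equiv.Perm (Fin N)) : Rt N ≃ Rt N where
  toFun p := ⟨(σ p.1.1, σ p.1.2), fun h => p.2 (σ.injective h)⟩
  invFun p := ⟨(σ.symm p.1.1, σ.symm p.1.2), fun h => p.2 (σ.symm.injective h)⟩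
  left_inv p := by
    apply Subtype.ext
    simp
  right_inv p := by
    apply Subtype.ext
    simp

theorem permR_rootE' {N : ℕ} (σ : Equiv.Perm (Fin N)) (p : Rt N) :
    permR σ (rootE N p) = rootE N (permRt σ p) := permR_rootE σ p

theorem map_permR_fprod (N : ℕ) (σ : Equiv.Perm (Fin N)) (A : ℕ → ℤ) (N0 : ℕ) :
    PowerSeries.map (permR σ) (fprod (rootE N) A N0) = fprod (rootE N) A N0 := by
  rw [map_fprod]
  simp_rw [permR_rootE']
  unfold fprod
  apply Finset.prod_congr rfl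
  intro m _
  exact Equiv.prod_comp (permRt σ)
    (fun p => ipw (1 - PowerSeries.monomial m (rootE N p)) (A m))

theorem winv_fprod (N : ℕ) (A : ℕ → ℤ) (N0 n : ℕ) :
    WInv (PowerSeries.coeff n (fprod (rootE N) A N0)) := by
  apply winv_of
  intro σ
  rw [← PowerSeries.coeff_map, map_permR_fprod]

end Pool.Agent.Y43.KI
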