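import Pool.Agent.Y80.KI.Defs

set_option autoImplicit false

open scoped BigOperators
open MeasureTheory

/-! Job KI-PTS of helper80: the product measure, special points of the torus. -/

namespace Pool.Agent.Y43.KI

open Pool.Agent.Y80.KI Pool.Agent.Y80.KM

theorem openPos (N : ℕ) : (muT N).IsOpenPosMeasure ∧ IsProbabilityMeasure (muT N) := by
  unfold muT
  exact ⟨inferInstance, inferInstance⟩

theorem mF_single {N : ℕ} (j : Fin N) (k : ℤ) (θ : KT N) :
    UnitAddTorus.mFourier (Pi.single j k) θ = fourier k (θ j) := by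
  change ∏ i, fourier ((Pi.single j k : Fin N → ℤ) i) (θ i) = _
  rw [Finset.prod_eq_single j]
  · rw [Pi.single_eq_same]
  · intro i _ hi
    rw [Pi.single_eq_of_ne hi, fourier_zero]
  · intro h
    exact absurd (Finset.mem_univ j) h

/-- the coordinates -/
noncomputable def zc {N : ℕ} (θ : KT N) (j : Fin N) : ℂ := fourier 1 (θ j)

theorem fourier_nat_pow (x : UnitAddCircle) (n : ℕ) :
    (fourier (n : ℤ) x : ℂ) = (fourier 1 x) ^ n := by
  induction n with
  | zero => rw [Nat.cast_zero, fourier_zero, pow_zero]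
  | succ n ih => rw [Nat.cast_succ, fourier_add, ih, pow_succ]

theorem vand_eq (N : ℕ) (θ : KT N) : vand N θ = (Matrix.vandermonde (zc θ)).det := by
  rw [← Matrix.det_transpose, Matrix.det_apply']
  unfold vand
  rw [ContinuousMap.sum_apply]
  apply Finset.sum_congr rfl
  intro σ _
  rw [ContinuousMap.smul_apply, smul_eq_mul]
  congr 1
  change ∏ i, fourier (((σ i : ℕ) : ℤ)) (θ i) = _
  apply Finset.prod_congr rfl
  intro i _
  rw [fourier_nat_pow]
  rfl

theorem wgt_pos {N : ℕ} {θ : KT N} (h : Function.Injective (zc θ)) : 0 < wgt N θ := by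
  change 0 < ‖vand N θ‖ ^ 2
  rw [vand_eq]
  have := Matrix.det_vandermonde_ne_zero_iff.2 h
  positivity

theorem chN_eq {N : ℕ} (θ : KT N) : chN N θ = ‖∑ j, zc θ j‖ ^ 2 := by
  change ‖∑ j : Fin N, UnitAddTorus.mFourier (Pi.single j (1 : ℤ)) θ‖ ^ 2 = _
  congr 2
  apply Finset.sum_congr rfl
  intro j _
  rw [mF_single]
  rfl

theorem f0 : (fourier 1 ((0 : ℝ) : UnitAddCircle) : ℂ) = 1 := by
  rw [fourier_coe_apply]
  simp

theorem f2 : (fourier 1 ((1 / 2 : ℝ) : UnitAddCircle) : ℂ) = -1 := by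
  rw [fourier_coe_apply, ← Complex.exp_pi_mul_I]
  congr 1
  push_cast
  ring

theorem f4 : (fourier 1 ((1 / 4 : ℝ) : UnitAddCircle) : ℂ) = Complex.I := by
  rw [fourier_coe_apply]
  have : (2 * (Real.pi : ℂ) * Complex.I * ((1 : ℤ) : ℂ) * ((1 / 4 : ℝ) : ℂ) / ((1 : ℝ) : ℂ)) =
      ((Real.pi / 2 : ℝ) : ℂ) * Complex.I := by
    push_cast
    ring
  rw [this, Complex.exp_mul_I, ← Complex.ofReal_cos, ← Complex.ofReal_sin, Real.cos_pi_div_two,
    Real.sin_pi_div_two]
  simp

theorem f8 : ∃ w : ℂ, (fourier 1 ((1 / 8 : ℝ) : UnitAddCircle) : ℂ) = w ∧ 0 < w.re ∧ 0 < w.im := by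
  refine ⟨_, rfl, ?_⟩
  rw [fourier_coe_apply]
  have : (2 * (Real.pi : ℂ) * Complex.I * ((1 : ℤ) : ℂ) * ((1 / 8 : ℝ) : ℂ) / ((1 : ℝ) : ℂ)) =
      ((Real.pi / 4 : ℝ) : ℂ) * Complex.I := by
    push_cast
    ring
  rw [this, Complex.exp_mul_I, ← Complex.ofReal_cos, ← Complex.ofReal_sin, Real.cos_pi_div_four,
    Real.sin_pi_div_four]
  constructor
  · simp
  · simp

theorem inj2 {a b : ℂ} (h : a ≠ b) : Function.Injective ![a, b] := by
  intro i j hij
  fin_cases i <;> fin_cases j <;> simp_all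

theorem inj3 {a b c : ℂ} (h : a ≠ b) (h1 : a ≠ c) (h2 : b ≠ c) :
    Function.Injective ![a, b, c] := by
  intro i j hij
  fin_cases i <;> fin_cases j <;> simp_all

theorem points (N : ℕ) (hN : N = 2 ∨ N = 3) :
    ∃ θ₀ θ₁ : KT N, 0 < wgt N θ₀ ∧ 0 < wgt N θ₁ ∧ chN N θ₀ < chN N θ₁ := by
  rcases hN with rfl | rfl
  · let θ₀ : KT 2 := ![((0 : ℝ) : UnitAddCircle), ((1 / 2 : ℝ) : UnitAddCircle)]
    let θ₁ : KT 2 := ![((0 : ℝ) : UnitAddCircle), ((1 / 4 : ℝ) : UnitAddCircle)]
    have h0 : zc θ₀ = ![1, -1] := by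
      funext i
      fin_cases i
      · exact f0
      · exact f2
    have h1 : zc θ₁ = ![1, Complex.I] := by
      funext i
      fin_cases i
      · exact f0
      · exact f4
    refine ⟨θ₀, θ₁, wgt_pos ?_, wgt_pos ?_, ?_⟩
    · rw [h0]
      exact inj2 (by norm_num)
    · rw [h1]
      refine inj2 (fun h => ?_)
      have := congrArg Complex.im h
      simp at this
    · rw [chN_eq, chN_eq, h0, h1]
      have h2 : (1 : ℂ) + Complex.I ≠ 0 := by
        intro h
        have := congrArg Complex.im h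
        simp at this
      simp only [Fin.sum_univ_two, Matrix.cons_val_zero, Matrix.cons_val_one]
      rw [show (1 : ℂ) + -1 = 0 by ring, norm_zero]
      have := norm_pos_iff.2 h2
      rw [zero_pow two_ne_zero]
      positivity
  · obtain ⟨w, hw, hre, him⟩ := f8
    let θ₀ : KT 3 := ![((0 : ℝ) : UnitAddCircle), ((1 / 4 : ℝ) : UnitAddCircle),
      ((1 / 2 : ℝ) : UnitAddCircle)]
    let θ₁ : KT 3 := ![((0 : ℝ) : UnitAddCircle), ((1 / 8 : ℝ) : UnitAddCircle),
      ((1 / 4 : ℝ) : UnitAddCircle)]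
    have h0 : zc θ₀ = ![1, Complex.I, -1] := by
      funext i
      fin_cases i
      · exact f0
      · exact f4
      · exact f2
    have h1 : zc θ₁ = ![1, w, Complex.I] := by
      funext i
      fin_cases i
      · exact f0
      · exact hw
      · exact f4
    have hI : (1 : ℂ) ≠ Complex.I := fun h => by
      have := congrArg Complex.im h
      simp at this
    refine ⟨θ₀, θ₁, wgt_pos ?_, wgt_pos ?_, ?_⟩
    · rw [h0]
      refine inj3 hI (by norm_num) (fun h => ?_)
      have := congrArg Complex.im h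
      simp at this
    · rw [h1]
      refine inj3 (fun h => ?_) hI (fun h => ?_)
      · have := congrArg Complex.im h
        rw [Complex.one_im] at this
        exact absurd this.symm him.ne'
      · have := congrArg Complex.re h
        rw [Complex.I_re] at this
        exact absurd this hre.ne'
    · rw [chN_eq, chN_eq, h0, h1]
      simp only [Fin.sum_univ_three, Matrix.cons_val_zero, Matrix.cons_val_one,
        Matrix.cons_val]
      have h2 : ‖(1 : ℂ) + Complex.I + -1‖ = 1 := by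
        rw [show (1 : ℂ) + Complex.I + -1 = Complex.I by ring, Complex.norm_I]
      rw [h2, one_pow]
      have h3 : 1 < ‖(1 : ℂ) + w + Complex.I‖ := by
        have h4 := Complex.abs_re_le_norm ((1 : ℂ) + w + Complex.I)
        have h5 : ((1 : ℂ) + w + Complex.I).re = 1 + w.re := by simp
        rw [h5] at h4
        have h6 := le_abs_self (1 + w.re)
        linarith
      nlinarith

theorem evT_rootE {N : ℕ} (p : Rt N) (θ : KT N) : evT N (rootE N p) θ =
    fourier 1 (θ p.1.1) * (starRingEnd ℂ) (fourier 1 (θ p.1.2)) := by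
  have h1 : evT N (rootE N p) = UnitAddTorus.mFourier (epsd p.1.1 p.1.2) := by
    unfold evT rootE
    change AddMonoidAlgebra.lift ℤ _ _ _ (AddMonoidAlgebra.single _ _) = _
    rw [AddMonoidAlgebra.lift_single, one_smul]
    rfl
  rw [h1]
  unfold epsd
  rw [sub_eq_add_neg, UnitAddTorus.mFourier_add, UnitAddTorus.mFourier_neg, mF_single, mF_single]

/-- the power sums of the roots are real: `∑_{i ≠ j} e^{k (ε_i - ε_j)} = |p_k|² - N` -/
theorem sroot (N k : ℕ) (θ : KT N) : ∑ p : Rt N, (evT N (rootE N p) ^ k) θ =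
    (((‖∑ j : Fin N, UnitAddTorus.mFourier (Pi.single j (k : ℤ)) θ‖ ^ 2 - N : ℝ)) : ℂ) := by
  classical
  set a : Fin N → ℂ := fun j => fourier (k : ℤ) (θ j) with ha
  have h1 : ∀ p : Rt N, (evT N (rootE N p) ^ k) θ = a p.1.1 * (starRingEnd ℂ) (a p.1.2) := by
    intro p
    rw [ContinuousMap.pow_apply, evT_rootE, mul_pow, ← fourier_nat_pow,
      ← map_pow (starRingEnd ℂ), ← fourier_nat_pow]
  have h2 : ∑ j : Fin N, UnitAddTorus.mFourier (Pi.single j (k : ℤ)) θ = ∑ j, a j := by
    apply Finset.sum_congr rfl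
    intro j _
    rw [mF_single]
  rw [Finset.sum_congr rfl (fun p _ => h1 p), h2]
  have h3 : ∑ p : Fin N × Fin N, a p.1 * (starRingEnd ℂ) (a p.2) =
      ((‖∑ j, a j‖ ^ 2 : ℝ) : ℂ) := by
    rw [← Complex.normSq_eq_norm_sq, ← Complex.mul_conj, map_sum, Finset.sum_mul_sum,
      Fintype.sum_prod_type]
  have h4 : ∑ p : Fin N × Fin N, a p.1 * (starRingEnd ℂ) (a p.2) =
      ∑ p : Rt N, a p.1.1 * (starRingEnd ℂ) (a p.1.2) + N := by
    rw [← Finset.sum_filter_add_sum_filter_not Finset.univ (fun p : Fin N × Fin N => p.1 ≠ p.2)]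
    congr 1
    · rw [Finset.sum_subtype (Finset.univ.filter (fun p : Fin N × Fin N => p.1 ≠ p.2))
        (p := fun p => p.1 ≠ p.2) (by simp)]
    · have h5 : (Finset.univ.filter (fun p : Fin N × Fin N => ¬ p.1 ≠ p.2)) =
          Finset.univ.image (fun i : Fin N => (i, i)) := by
        ext ⟨i, j⟩
        simp only [Finset.mem_filter, Finset.mem_univ, true_and, not_not, Finset.mem_image,
          Prod.mk.injEq]
        constructor
        · rintro rfl
          exact ⟨i, rfl, rfl⟩
        · rintro ⟨l, rfl, rfl⟩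
          rfl
      rw [h5, Finset.sum_image (fun i _ j _ h => (Prod.mk.inj h).1)]
      have h6 : ∀ i : Fin N, a i * (starRingEnd ℂ) (a i) = 1 := by
        intro i
        rw [Complex.mul_conj, Complex.normSq_eq_norm_sq]
        have h7 : ‖a i‖ = 1 := by
          rw [ha]
          simp only [fourier_apply, Circle.norm_coe]
        rw [h7]
        simp
      rw [Finset.sum_congr rfl (fun i _ => h6 i)]
      simp
  push_cast
  have h8 := h3
  rw [h4] at h8
  push_cast at h8
  linear_combination h8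

end Pool.Agent.Y43.KI
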